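import Pool.Agent.V5helper32.CM.Stm

set_option autoImplicit false

/-!
# Project CM: a finiteness condition over a commutative algebra (job FDC)
-/

namespace Pool.Agent.V5helper19.CM.Fdc

open Pool.Agent.V5helper32.CM

variable {D : Type} [CommRing D] [Algebra ℂ D]

/-- finitely generated modules killed by an ideal of finite codimension have finite dimension -/
theorem fd_of_killed (M : Type) [AddCommGroup M] [Module ℂ M] [Module D M]
    [IsScalarTower ℂ D M] [Module.Finite D M] (J : Ideal D) (hJ : FiniteDimensional ℂ (D ⧸ J))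
    (h : ∀ z ∈ J, ∀ m : M, z • m = 0) : FiniteDimensional ℂ M := by
  have ht : Module.IsTorsionBySet D M (J : Set D) := by
    intro m z
    exact h z z.2 m
  let : Module (D ⧸ J) M := ht.module
  have h1 : IsScalarTower D (D ⧸ J) M := ht.isScalarTower
  have h2 : IsScalarTower ℂ (D ⧸ J) M := by
    refine ⟨fun c z m => ?_⟩
    obtain ⟨z, rfl⟩ := Ideal.Quotient.mk_surjective z
    have e : c • (Ideal.Quotient.mk J z) = Ideal.Quotient.mk J (c • z) := rfl
    have e2 : ∀ w : D, ∀ m : M, Ideal.Quotient.mk J w • m = w • m := fun w m => rfl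
    rw [e, e2, e2, smul_assoc]
  have h3 : Module.Finite (D ⧸ J) M := Module.Finite.of_restrictScalars_finite D (D ⧸ J) M
  exact Module.Finite.trans (D ⧸ J) M

theorem fd_mono {I J : Ideal D} (h : I ≤ J) (hI : FiniteDimensional ℂ (D ⧸ I)) :
    FiniteDimensional ℂ (D ⧸ J) := by
  have hs : Function.Surjective (Ideal.Quotient.factorₐ ℂ h) := Ideal.Quotient.factor_surjective h
  exact Module.Finite.of_surjective (Ideal.Quotient.factorₐ ℂ h).toLinearMap hs

theorem fd_mul [IsNoetherianRing D] {I J : Ideal D} (hI : FiniteDimensional ℂ (D ⧸ I))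
    (hJ : FiniteDimensional ℂ (D ⧸ J)) : FiniteDimensional ℂ (D ⧸ (I * J)) := by
  -- the kernel of `D/IJ → D/I`
  let π : (D ⧸ (I * J)) →ₗ[D] (D ⧸ I) := Submodule.factor Ideal.mul_le_left
  have hπ : Function.Surjective π := Submodule.factor_surjective _
  have hk : FiniteDimensional ℂ (LinearMap.ker π) := by
    refine fd_of_killed (LinearMap.ker π) J hJ fun z hz m => ?_
    obtain ⟨m, hm⟩ := m
    obtain ⟨w, rfl⟩ := Submodule.Quotient.mk_surjective _ m
    have hw : w ∈ I := by
      have h1 : π (Submodule.Quotient.mk w) = Submodule.Quotient.mk w := rfl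
      rw [LinearMap.mem_ker, h1, Submodule.Quotient.mk_eq_zero] at hm
      exact hm
    apply Subtype.ext
    change z • (Submodule.Quotient.mk w : D ⧸ (I * J)) = 0
    rw [← Submodule.Quotient.mk_smul, Submodule.Quotient.mk_eq_zero, smul_eq_mul, mul_comm z w]
    exact Ideal.mul_mem_mul hw hz
  let πc : (D ⧸ (I * J)) →ₗ[ℂ] (D ⧸ I) := π.restrictScalars ℂ
  have hk' : FiniteDimensional ℂ (LinearMap.ker πc) := hk
  have hq : FiniteDimensional ℂ ((D ⧸ (I * J)) ⧸ LinearMap.ker πc) :=
    Module.Finite.equiv (πc.quotKerEquivOfSurjective hπ).symm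
  exact Module.Finite.of_submodule_quotient (LinearMap.ker πc)

end Pool.Agent.V5helper19.CM.Fdc

namespace Pool.Agent.V5helper19.CM

open Pool.Agent.V5helper32.CM Fdc

theorem t_FDC : S_FDC := by
  intro D _ _ _
  refine ⟨?_, ?_, ?_, ?_, ?_, ?_, ?_⟩
  · rintro xs - M _ _ _ _ N ⟨h1, h2⟩
    have := h1
    refine ⟨inferInstance, fd_mono (sup_le_sup_right ?_ _) h2⟩
    intro z hz
    rw [Module.mem_annihilator] at hz ⊢
    intro m
    exact Subtype.ext (hz m)
  · rintro xs - M _ _ _ _ N ⟨h1, h2⟩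
    have := h1
    refine ⟨inferInstance, fd_mono (sup_le_sup_right ?_ _) h2⟩
    intro z hz
    rw [Module.mem_annihilator] at hz ⊢
    intro m
    obtain ⟨m, rfl⟩ := Submodule.Quotient.mk_surjective _ m
    rw [← Submodule.Quotient.mk_smul, hz, Submodule.Quotient.mk_zero]
  · rintro xs - M _ _ _ _ N ⟨h1, h2⟩ ⟨h3, h4⟩
    have := h1
    have := h3
    refine ⟨Module.Finite.of_submodule_quotient N, fd_mono ?_ (fd_mul h2 h4)⟩
    rw [Ideal.sup_mul, Ideal.mul_sup]
    refine sup_le (sup_le ?_ ?_) ?_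
    · refine le_sup_of_le_left (Ideal.mul_le.2 fun a ha b hb => ?_)
      rw [Module.mem_annihilator] at ha hb ⊢
      intro m
      have k1 : b • m ∈ N := by
        rw [← Submodule.Quotient.mk_eq_zero, Submodule.Quotient.mk_smul]
        exact hb _
      have k2 := ha ⟨b • m, k1⟩
      rw [mul_smul]
      exact congrArg Subtype.val k2
    · exact le_sup_of_le_right Ideal.mul_le_right
    · exact le_sup_of_le_right Ideal.mul_le_left
  · rintro xs - M M' _ _ _ _ _ _ _ _ e ⟨h1, h2⟩
    have := h1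
    refine ⟨Module.Finite.equiv e, ?_⟩
    rw [← e.annihilator_eq]
    exact h2
  · rintro x xs - M _ _ _ _ h0 ⟨h1, h2⟩
    refine ⟨h1, fd_mono ?_ h2⟩
    refine sup_le le_sup_left ?_
    rw [Ideal.span_le]
    intro y hy
    rcases List.mem_cons.1 hy with rfl | hy
    · exact Ideal.mem_sup_left (Module.mem_annihilator.2 h0)
    · exact Ideal.mem_sup_right (Ideal.subset_span hy)
  · rintro M _ _ _ _ ⟨h1, h2⟩
    have := h1
    refine fd_of_killed M _ h2 fun z hz m => ?_
    have e : (Ideal.span {x : D | x ∈ ([] : List D)}) = ⊥ := by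
      rw [Ideal.span_eq_bot]
      intro x hx
      exact absurd hx (List.not_mem_nil)
    rw [e, sup_bot_eq, Module.mem_annihilator] at hz
    exact hz m
  · rintro xs ys - hxy M _ _ _ _ ⟨h1, h2⟩
    refine ⟨h1, ?_⟩
    have e : {x | x ∈ ys} = {x | x ∈ xs} := by
      ext x
      exact hxy.mem_iff.symm
    rw [e]
    exact h2

end Pool.Agent.V5helper19.CM
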