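import Pool.Agent.V5helper32.CM.Stm

set_option autoImplicit false

/-!
# Project CM: finitely generated modules over central elements (job FG)
-/

namespace Pool.Agent.V5helper19.CM.Fg

open Pool.Agent.V5helper32.CM

variable {Λ : Type} [Ring Λ] [Algebra ℂ Λ]

/-- the polynomial ring -/
abbrev PR (xs : List Λ) := MvPolynomial (Fin xs.length) ℂ

/-- the map of the polynomial ring to the centre -/
noncomputable def ev (xs : List Λ) (hc : CenL xs) : PR xs →ₐ[ℂ] Λ :=
  (Subalgebra.center ℂ Λ).val.comp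
    (MvPolynomial.aeval fun i => (⟨xs.get i, by
      rw [Subalgebra.mem_center_iff]
      intro l
      exact (hc _ (List.get_mem xs i) l).symm⟩ : Subalgebra.center ℂ Λ))

theorem ev_X (xs : List Λ) (hc : CenL xs) (i : Fin xs.length) :
    ev xs hc (MvPolynomial.X i) = xs.get i := by
  simp [ev]

theorem ev_C (xs : List Λ) (hc : CenL xs) (c : ℂ) :
    ev xs hc (MvPolynomial.C c) = algebraMap ℂ Λ c := by
  rw [← MvPolynomial.algebraMap_eq, AlgHom.commutes]

section
variable {M : Type} [AddCommGroup M] [Module ℂ M] [Module Λ M] [IsScalarTower ℂ Λ M]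

/-- complex subspaces which are stable under `xs` are stable under the polynomial ring -/
theorem stable {xs : List Λ} (hc : CenL xs) (N : Submodule ℂ M)
    (h : ∀ x ∈ xs, ∀ m ∈ N, x • m ∈ N) (q : PR xs) : ∀ m ∈ N, ev xs hc q • m ∈ N := by
  induction q using MvPolynomial.induction_on with
  | C a =>
    intro m hm
    rw [ev_C, algebraMap_smul]
    exact N.smul_mem a hm
  | add p q hp hq =>
    intro m hm
    rw [map_add, add_smul]
    exact N.add_mem (hp m hm) (hq m hm)
  | mul_X p i hp =>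
    intro m hm
    rw [map_mul, mul_smul, ev_X]
    exact hp _ (h _ (List.get_mem xs i) m hm)

/-- `FG` means finitely generated over the polynomial ring -/
theorem fin_of_fg {xs : List Λ} (hc : CenL xs) (h : FG xs M) :
    @Module.Finite (PR xs) M _ _ (Module.compHom M (ev xs hc).toRingHom) := by
  let _ : Module (PR xs) M := Module.compHom M (ev xs hc).toRingHom
  have hs : ∀ (q : PR xs) (m : M), q • m = ev xs hc q • m := fun q m => rfl
  obtain ⟨s, hs'⟩ := h
  refine ⟨⟨s, ?_⟩⟩
  let N : Submodule ℂ M :=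
    { carrier := Submodule.span (PR xs) (s : Set M)
      add_mem' := fun ha hb => Submodule.add_mem _ ha hb
      zero_mem' := Submodule.zero_mem _
      smul_mem' := by
        intro c m hm
        have h1 := Submodule.smul_mem (Submodule.span (PR xs) (s : Set M)) (MvPolynomial.C c) hm
        rw [hs, ev_C, algebraMap_smul] at h1
        exact h1 }
  have hN : N = ⊤ := by
    refine hs' N (fun v hv => Submodule.subset_span hv) fun x hx m hm => ?_
    obtain ⟨i, rfl⟩ := List.get_of_mem hx
    have h1 := Submodule.smul_mem (Submodule.span (PR xs) (s : Set M)) (MvPolynomial.X i) hm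
    rw [hs, ev_X] at h1
    exact h1
  rw [eq_top_iff]
  intro m _
  have : m ∈ N := by rw [hN]; trivial
  exact this

theorem fg_of_fin {xs : List Λ} (hc : CenL xs)
    (h : @Module.Finite (PR xs) M _ _ (Module.compHom M (ev xs hc).toRingHom)) : FG xs M := by
  let _ : Module (PR xs) M := Module.compHom M (ev xs hc).toRingHom
  have hs : ∀ (q : PR xs) (m : M), q • m = ev xs hc q • m := fun q m => rfl
  obtain ⟨⟨s, hs'⟩⟩ := h
  refine ⟨s, fun N hN h1 => ?_⟩
  let N' : Submodule (PR xs) M :=
    { carrier := N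
      add_mem' := fun ha hb => N.add_mem ha hb
      zero_mem' := N.zero_mem
      smul_mem' := fun q m hm => stable hc N h1 q m hm }
  have h2 : Submodule.span (PR xs) (s : Set M) ≤ N' := Submodule.span_le.2 fun v hv => hN v hv
  rw [hs'] at h2
  rw [eq_top_iff]
  intro m _
  exact h2 (Submodule.mem_top)

theorem noeth {xs : List Λ} (hc : CenL xs) (h : FG xs M) : IsNoetherian Λ M := by
  let _ : Module (PR xs) M := Module.compHom M (ev xs hc).toRingHom
  have h1 : Module.Finite (PR xs) M := fin_of_fg hc h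
  have h2 : IsNoetherian (PR xs) M := isNoetherian_of_isNoetherianRing_of_finite _ _
  let _ : SMul (PR xs) Λ := ⟨fun q l => ev xs hc q * l⟩
  have h3 : IsScalarTower (PR xs) Λ M := ⟨fun q l m => mul_smul (ev xs hc q) l m⟩
  exact isNoetherian_of_tower (PR xs) h2

theorem sub {xs : List Λ} (hc : CenL xs) (h : FG xs M) (N : Submodule Λ M) : FG xs N := by
  let _ : Module (PR xs) M := Module.compHom M (ev xs hc).toRingHom
  let _ : Module (PR xs) N := Module.compHom N (ev xs hc).toRingHom
  have h1 : Module.Finite (PR xs) M := fin_of_fg hc h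
  have h2 : IsNoetherian (PR xs) M := isNoetherian_of_isNoetherianRing_of_finite _ _
  let f : N →ₗ[PR xs] M :=
    { toFun := fun m => m
      map_add' := fun a b => rfl
      map_smul' := fun a b => rfl }
  exact fg_of_fin hc (Module.Finite.of_injective f Subtype.val_injective)

theorem quo {xs : List Λ} (h : FG xs M) (N : Submodule Λ M) : FG xs (M ⧸ N) := by
  classical
  obtain ⟨s, hs⟩ := h
  refine ⟨s.image (Submodule.Quotient.mk), fun N' h1 h2 => ?_⟩
  have h3 := hs (N'.comap ((N.mkQ).restrictScalars ℂ))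
    (fun v hv => h1 _ (Finset.mem_image_of_mem _ hv))
    (fun x hx m hm => h2 x hx _ hm)
  rw [eq_top_iff]
  intro m _
  obtain ⟨m, rfl⟩ := Submodule.Quotient.mk_surjective _ m
  have h4 : m ∈ N'.comap ((N.mkQ).restrictScalars ℂ) := by rw [h3]; trivial
  exact h4

theorem ext {xs : List Λ} (N : Submodule Λ M) (h : FG xs N) (h' : FG xs (M ⧸ N)) : FG xs M := by
  classical
  obtain ⟨s, hs⟩ := h
  obtain ⟨s', hs'⟩ := h'
  choose g hg using (Submodule.Quotient.mk_surjective N)
  refine ⟨s.image (fun v : N => (v : M)) ∪ s'.image g, fun N' h1 h2 => ?_⟩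
  have k1 := hs (N'.comap ((N.subtype).restrictScalars ℂ))
    (fun v hv => h1 _ (Finset.mem_union_left _ (Finset.mem_image_of_mem _ hv)))
    (fun x hx m hm => h2 x hx _ hm)
  have k2 : ∀ m ∈ N, m ∈ N' := by
    intro m hm
    have h4 : (⟨m, hm⟩ : N) ∈ N'.comap ((N.subtype).restrictScalars ℂ) := by rw [k1]; trivial
    exact h4
  have k3 := hs' (N'.map ((N.mkQ).restrictScalars ℂ))
    (fun v hv => ⟨g v, h1 _ (Finset.mem_union_right _ (Finset.mem_image_of_mem _ hv)), hg v⟩)
    (by
      rintro x hx _ ⟨m, hm, rfl⟩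
      exact ⟨x • m, h2 x hx m hm, rfl⟩)
  rw [eq_top_iff]
  intro m _
  have h4 : (Submodule.Quotient.mk m : M ⧸ N) ∈ N'.map ((N.mkQ).restrictScalars ℂ) := by
    rw [k3]; trivial
  obtain ⟨m', hm', h5⟩ := h4
  have h6 : m - m' ∈ N := by
    rw [← Submodule.Quotient.eq]
    exact h5.symm
  have h7 := N'.add_mem (k2 _ h6) hm'
  rwa [sub_add_cancel] at h7

end

end Pool.Agent.V5helper19.CM.Fg

namespace Pool.Agent.V5helper19.CM

open Pool.Agent.V5helper32.CM

theorem t_FG : S_FG := by
  intro Λ _ _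
  refine ⟨⟨?_, ?_, ?_, ?_, ?_, ?_, ?_⟩, ?_⟩
  · intro xs hc M _ _ _ _ N h
    exact Fg.sub hc h N
  · intro xs _ M _ _ _ _ N h
    exact Fg.quo h N
  · intro xs _ M _ _ _ _ N h h'
    exact Fg.ext N h h'
  · rintro xs - M M' _ _ _ _ _ _ _ _ e ⟨s, hs⟩
    classical
    refine ⟨s.image e, fun N' h1 h2 => ?_⟩
    have h3 := hs (N'.comap ((e.toLinearMap).restrictScalars ℂ))
      (fun v hv => h1 _ (Finset.mem_image_of_mem _ hv))
      (fun x hx m hm => by
        change e (x • m) ∈ N'
        rw [map_smul]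
        exact h2 x hx _ hm)
    rw [eq_top_iff]
    intro m _
    have h4 : e.symm m ∈ N'.comap ((e.toLinearMap).restrictScalars ℂ) := by rw [h3]; trivial
    have h5 : e (e.symm m) ∈ N' := h4
    rwa [e.apply_symm_apply] at h5
  · rintro x xs - M _ _ _ _ h0 ⟨s, hs⟩
    refine ⟨s, fun N h1 h2 => hs N h1 fun y hy m hm => ?_⟩
    rcases List.mem_cons.1 hy with rfl | hy
    · rw [h0]; exact N.zero_mem
    · exact h2 y hy m hm
  · rintro M _ _ _ _ ⟨s, hs⟩
    refine ⟨⟨s, hs _ (fun v hv => Submodule.subset_span hv) fun x hx => ?_⟩⟩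
    exact absurd hx List.not_mem_nil
  · rintro xs ys - hxy M _ _ _ _ ⟨s, hs⟩
    exact ⟨s, fun N h1 h2 => hs N h1 fun x hx => h2 x (hxy.mem_iff.1 hx)⟩
  · intro xs hc M _ _ _ _ h
    refine ⟨Fg.noeth hc h, fun ys hxy => ?_⟩
    obtain ⟨s, hs⟩ := h
    exact ⟨s, fun N h1 h2 => hs N h1 fun x hx => h2 x (hxy hx)⟩

end Pool.Agent.V5helper19.CM
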