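import Pool.Agent.V5helper19.CM.RUN

set_option autoImplicit false

/-!
# Project CM: the structure `Full` on the presented algebra (job FULLX)
-/

namespace Pool.Agent.V5helper19.CM

open Pool.Agent.V5helper32.CM Run MvPolynomial

namespace Fullx

variable {V : Type} [AddCommGroup V] [Module ℂ V] {n : ℕ} (b : Module.Basis (Fin n) ℂ V)

theorem matB_inj : Function.Injective (matB b) := by
  intro g h hgh
  have h1 : (matB b g).val = (matB b h).val := congrArg Units.val hgh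
  have h2 : (g : V →ₗ[ℂ] V) = (h : V →ₗ[ℂ] V) := (LinearMap.toMatrix b b).injective h1
  exact LinearEquiv.toLinearMap_injective h2

theorem rank_matB (g : V ≃ₗ[ℂ] V) : ((matB b g).val - 1).rank =
    Module.finrank ℂ (LinearMap.range ((g : V →ₗ[ℂ] V) - LinearMap.id)) := by
  rw [Matrix.rank_eq_finrank_range_toLin _ b b]
  have e : Matrix.toLin b b ((matB b g).val - 1) = (g : V →ₗ[ℂ] V) - LinearMap.id := by
    rw [map_sub, Matrix.toLin_one]
    congr 1
    exact Matrix.toLin_toMatrix b b (g : V →ₗ[ℂ] V)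
  rw [e]

variable {W : Subgroup (V ≃ₗ[ℂ] V)} (κ : V → Module.Dual ℂ V → W → ℂ)

theorem gam_X (z : ℂˣ) (ξ : Module.Dual ℂ V) :
    Rca.gam κ z (Rca.X κ ξ) = (z : ℂ) • Rca.X κ ξ := by
  conv_lhs => rw [Rca.X]
  unfold Rca.gam
  rw [RingQuot.liftAlgHom_mkAlgHom_apply, FreeAlgebra.lift_ι_apply]

theorem gam_Y (z : ℂˣ) (v : V) :
    Rca.gam κ z (Rca.Y κ v) = ((z⁻¹ : ℂˣ) : ℂ) • Rca.Y κ v := by
  conv_lhs => rw [Rca.Y]
  unfold Rca.gam
  rw [RingQuot.liftAlgHom_mkAlgHom_apply, FreeAlgebra.lift_ι_apply]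

theorem gam_G (z : ℂˣ) (w : W) : Rca.gam κ z (Rca.G κ w) = Rca.G κ w := by
  change Rca.gam κ z (RingQuot.mkAlgHom ℂ (Rel W κ) (FreeAlgebra.ι ℂ (Gen.g w))) = _
  unfold Rca.gam
  rw [RingQuot.liftAlgHom_mkAlgHom_apply, FreeAlgebra.lift_ι_apply]

end Fullx

open Fullx

theorem t_FULLX (hRUN : S_RUN) (hTRI : S_TRI) : S_FULLX := by
  intro V _ _ n b W _ c κ hc hrefl hκ τ D hρ ht hθ σ hσX hσY hσG
  obtain ⟨R, hRx, hRy, hRu, hU⟩ := hRUN V n b W c κ hκ
  have hinj : Function.Injective ((matB b).comp W.subtype) :=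
    (matB_inj b).comp Subtype.val_injective
  have hcr : ClsRefl ((matB b).comp W.subtype) c := by
    refine ⟨hc, fun w hw => ?_⟩
    have h1 := hrefl w hw
    exact (rank_matB b (w : V ≃ₗ[ℂ] V)).trans h1
  obtain ⟨T, hTi, hTj, hTu⟩ : ∃ T : Tri D.ρ (Rca W κ), (∀ a, T.i (X a) = Rca.X κ (b.coord a)) ∧
      (∀ a, T.j (X a) = Rca.Y κ (b a)) ∧ T.u = Rca.G κ := by
    rw [hρ]
    obtain ⟨T, h1, h2, h3⟩ := hTRI n W _ hinj c hcr (Rca W κ) R hU
    exact ⟨T, fun a => (h1 a).trans (hRx a), fun a => (h2 a).trans (hRy a), h3.trans hRu⟩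
  have hσi : ∀ f, σ (T.i f) = T.i (act D.t f) := by
    intro f
    have key : (σ : Rca W κ →ₐ[ℂ] Rca W κ).comp T.i = T.i.comp (act D.t) := by
      apply MvPolynomial.algHom_ext
      intro a
      have e : (σ : Rca W κ →ₐ[ℂ] Rca W κ) (T.i (X a)) = σ (T.i (X a)) := rfl
      rw [AlgHom.comp_apply, AlgHom.comp_apply, e, hTi, hσX, act, aeval_X, map_sum]
      have e2 := coord_comp b τ a
      rw [← Xl_apply, e2, map_sum]
      refine Finset.sum_congr rfl fun j _ => ?_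
      rw [map_smul, Xl_apply, map_mul, hTi, ← algebraMap_eq, AlgHom.commutes, ht,
        Algebra.smul_def]
    exact DFunLike.congr_fun key f
  have hσj : ∀ g, σ (T.j g) = T.j (act (dualG D.t) g) := by
    intro f
    have key : (σ : Rca W κ →ₐ[ℂ] Rca W κ).comp T.j = T.j.comp (act (dualG D.t)) := by
      apply MvPolynomial.algHom_ext
      intro a
      have e : (σ : Rca W κ →ₐ[ℂ] Rca W κ) (T.j (X a)) = σ (T.j (X a)) := rfl
      rw [AlgHom.comp_apply, AlgHom.comp_apply, e, hTj, hσY, act, aeval_X, map_sum]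
      rw [vec_eq b τ a, ← Yl_apply, map_sum]
      refine Finset.sum_congr rfl fun j _ => ?_
      rw [map_smul, Yl_apply, map_mul, hTj, ← algebraMap_eq, AlgHom.commutes, Algebra.smul_def]
      congr 2
      rw [ht]
      rfl
    exact DFunLike.congr_fun key f
  have hσu : ∀ w, σ (T.u w) = T.u (D.θ w) := by
    intro w
    rw [hTu]
    exact hσG w (D.θ w) (hθ w)
  refine ⟨{ T := T, σ := σ, σi := hσi, σj := hσj, σu := hσu, γ := Rca.gam κ, γi := ?_, γj := ?_,
            γu := ?_ }, hTi, hTj, hTu, rfl, rfl⟩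
  · intro z a
    rw [hTi, gam_X]
  · intro z a
    rw [hTj, gam_Y]
  · intro z w
    rw [hTu, gam_G]

end Pool.Agent.V5helper19.CM
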