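import Pool.Agent.V5helper32.CM.Stm

set_option autoImplicit false

/-!
# Project CM: existence of the skew group algebra (job LAM)
-/

namespace Pool.Agent.V5helper19.CM.Lam

open Pool.Agent.V5helper32.CM

variable {Z : Type} [CommRing Z] [Algebra ℂ Z] (τ : Z ≃ₐ[ℂ] Z) (n : ℕ)

/-- generators -/
abbrev FA (Z : Type) := FreeAlgebra ℂ (Option Z)

/-- the generator of `z` -/
noncomputable def gz (z : Z) : FA Z := FreeAlgebra.ι ℂ (some z)

/-- the generator `t` -/
noncomputable def gt (Z : Type) : FA Z := FreeAlgebra.ι ℂ none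

/-- relations -/
inductive Rl : FA Z → FA Z → Prop
  | add (z w : Z) : Rl (gz (z + w)) (gz z + gz w)
  | mul (z w : Z) : Rl (gz (z * w)) (gz z * gz w)
  | sca (c : ℂ) : Rl (gz (algebraMap ℂ Z c)) (algebraMap ℂ (FA Z) c)
  | pow : Rl (gt Z ^ n) 1
  | com (z : Z) : Rl (gt Z * gz z) (gz (τ z) * gt Z)

/-- the algebra -/
abbrev LA : Type := RingQuot (Rl τ n)

/-- the projection -/
noncomputable abbrev pj : FA Z →ₐ[ℂ] LA τ n := RingQuot.mkAlgHom ℂ (Rl τ n)

theorem pj_rel {x y : FA Z} (h : Rl τ n x y) : pj τ n x = pj τ n y :=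
  RingQuot.mkAlgHom_rel ℂ h

/-- the image of `Z` -/
noncomputable def io : Z →ₐ[ℂ] LA τ n where
  toFun z := pj τ n (gz z)
  map_one' := by
    have h := pj_rel τ n (Rl.sca (n := n) (τ := τ) (1 : ℂ))
    rw [map_one, map_one, map_one] at h
    exact h
  map_mul' z w := by rw [pj_rel τ n (Rl.mul z w), map_mul]
  map_zero' := by
    have h := pj_rel τ n (Rl.sca (n := n) (τ := τ) (0 : ℂ))
    rw [map_zero, map_zero, map_zero] at h
    exact h
  map_add' z w := by rw [pj_rel τ n (Rl.add z w), map_add]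
  commutes' c := by rw [pj_rel τ n (Rl.sca c), AlgHom.commutes]

/-- the element `t` -/
noncomputable def tt : LA τ n := pj τ n (gt Z)

theorem tt_pow : tt τ n ^ n = 1 := by
  have h := pj_rel τ n (Rl.pow (n := n) (τ := τ))
  rwa [map_pow, map_one] at h

theorem tt_com (z : Z) : tt τ n * io τ n z = io τ n (τ z) * tt τ n := by
  have h := pj_rel τ n (Rl.com (n := n) (τ := τ) z)
  rwa [map_mul, map_mul] at h

theorem tt_com_pow (k : ℕ) (z : Z) : tt τ n ^ k * io τ n z = io τ n ((τ ^ k) z) * tt τ n ^ k := by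
  induction k generalizing z with
  | zero => simp
  | succ k ih =>
    rw [pow_succ, mul_assoc, tt_com, ← mul_assoc, ih, mul_assoc, ← pow_succ]
    rfl

/-- the elements of the required form -/
def Gn (l : LA τ n) : Prop :=
  ∃ c : ℕ → Z, l = ∑ k ∈ Finset.range n, io τ n (c k) * tt τ n ^ k

theorem Gn_add {l l' : LA τ n} (h : Gn τ n l) (h' : Gn τ n l') : Gn τ n (l + l') := by
  obtain ⟨c, rfl⟩ := h
  obtain ⟨c', rfl⟩ := h'
  refine ⟨fun k => c k + c' k, ?_⟩
  rw [← Finset.sum_add_distrib]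
  refine Finset.sum_congr rfl fun k _ => ?_
  rw [map_add, add_mul]

theorem Gn_zero : Gn τ n 0 := ⟨fun _ => 0, by simp⟩

theorem Gn_sum {ι : Type} (s : Finset ι) (f : ι → LA τ n) (h : ∀ i ∈ s, Gn τ n (f i)) :
    Gn τ n (∑ i ∈ s, f i) := by
  classical
  induction s using Finset.induction_on with
  | empty => simpa using Gn_zero τ n
  | insert a s ha ih =>
    rw [Finset.sum_insert ha]
    exact Gn_add τ n (h a (Finset.mem_insert_self _ _))
      (ih fun i hi => h i (Finset.mem_insert_of_mem hi))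

variable {n}

theorem Gn_mono (hn : 0 < n) (z : Z) (m : ℕ) : Gn τ n (io τ n z * tt τ n ^ m) := by
  have e : tt τ n ^ m = tt τ n ^ (m % n) := by
    conv_lhs => rw [← Nat.div_add_mod m n, pow_add, pow_mul, tt_pow, one_pow, one_mul]
  rw [e]
  refine ⟨fun k => if k = m % n then z else 0, ?_⟩
  rw [Finset.sum_eq_single (m % n)]
  · simp
  · intro b _ hb
    simp [hb]
  · intro h
    exact absurd (Finset.mem_range.2 (Nat.mod_lt m hn)) h

theorem Gn_mul (hn : 0 < n) {l l' : LA τ n} (h : Gn τ n l) (h' : Gn τ n l') :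
    Gn τ n (l * l') := by
  obtain ⟨c, rfl⟩ := h
  obtain ⟨c', rfl⟩ := h'
  rw [Finset.sum_mul_sum]
  refine Gn_sum τ n _ _ fun k _ => Gn_sum τ n _ _ fun j _ => ?_
  have e : io τ n (c k) * tt τ n ^ k * (io τ n (c' j) * tt τ n ^ j) =
      io τ n (c k * (τ ^ k) (c' j)) * tt τ n ^ (k + j) := by
    rw [map_mul, pow_add]
    calc _ = io τ n (c k) * (tt τ n ^ k * io τ n (c' j)) * tt τ n ^ j := by
          simp only [mul_assoc]
      _ = _ := by rw [tt_com_pow]; simp only [mul_assoc]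
  rw [e]
  exact Gn_mono τ hn _ _

theorem Gn_all (hn : 0 < n) (l : LA τ n) : Gn τ n l := by
  obtain ⟨x, rfl⟩ := RingQuot.mkAlgHom_surjective ℂ (Rl τ n) l
  induction x using FreeAlgebra.induction with
  | grade0 c =>
    have h := Gn_mono τ hn (algebraMap ℂ Z c) 0
    rw [pow_zero, mul_one, AlgHom.commutes] at h
    rwa [AlgHom.commutes]
  | grade1 o =>
    cases o with
    | none =>
      have h := Gn_mono τ hn (1 : Z) 1
      rw [pow_one, map_one, one_mul] at h
      exact h
    | some z =>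
      have h := Gn_mono τ hn z 0
      rw [pow_zero, mul_one] at h
      exact h
  | mul a b ha hb =>
    rw [map_mul]
    exact Gn_mul τ hn ha hb
  | add a b ha hb =>
    rw [map_add]
    exact Gn_add τ n ha hb

/-- the skew group algebra -/
noncomputable def sk (hn : 0 < n) (hτ : ∀ z, (τ ^ n) z = z) : Skew Z τ (LA τ n) where
  ι := io τ n
  t := tt τ n
  n := n
  npos := hn
  tn := tt_pow τ n
  τn := hτ
  comm := tt_com τ n
  gen := Gn_all τ hn

end Pool.Agent.V5helper19.CM.Lam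

namespace Pool.Agent.V5helper19.CM

open Pool.Agent.V5helper32.CM Lam

theorem t_LAM : S_LAM := by
  intro Z _ _ τ n hn hτ
  refine ⟨LA τ n, inferInstance, inferInstance, sk τ hn hτ, rfl, ?_⟩
  intro B _ _ f T hT hc
  let g : FA Z →ₐ[ℂ] B := FreeAlgebra.lift ℂ (fun o => o.elim T (fun z => f z))
  have g1 : ∀ z, g (gz z) = f z := fun z => FreeAlgebra.lift_ι_apply _ _
  have g2 : g (gt Z) = T := FreeAlgebra.lift_ι_apply _ _
  have hg : ∀ ⦃x y⦄, Rl τ n x y → g x = g y := by
    intro x y h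
    cases h with
    | add z w => rw [map_add, g1, g1, g1, map_add]
    | mul z w => rw [map_mul, g1, g1, g1, map_mul]
    | sca c => rw [g1, AlgHom.commutes, AlgHom.commutes]
    | pow => rw [map_pow, g2, hT, map_one]
    | com z => rw [map_mul, map_mul, g1, g1, g2, hc]
  refine ⟨RingQuot.liftAlgHom ℂ ⟨g, hg⟩, fun z => ?_, ?_⟩
  · exact (RingQuot.liftAlgHom_mkAlgHom_apply ℂ g hg _).trans (g1 z)
  · exact (RingQuot.liftAlgHom_mkAlgHom_apply ℂ g hg _).trans g2

end Pool.Agent.V5helper19.CM
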