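import Pool.Agent.V5helper19.CM.OMb

set_option autoImplicit false

/-!
# Project CM: the degree zero part of central elements (jobs OM, GRD)
-/

namespace Pool.Agent.V5helper19.CM.Om

open Pool.Agent.V5helper32.CM MvPolynomial
open scoped TensorProduct

variable {n : ℕ} {W : Type} [Group W] [Fintype W] {D : Rd n W} {H : Type} [Ring H] [Algebra ℂ H]
  (Φ : Full D H)

theorem om1 (h : H) (hh : ∀ s, Φ.γ s h = h) : ∃ a : MonoidAlgebra ℂ W,
    h - MonoidAlgebra.lift ℂ H W Φ.T.u a ∈ Ly Φ := by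
  classical
  have h0 : h ∈ Hm Φ 0 := fun s => by rw [hh s, zpow_zero, Units.val_one, one_smul]
  refine ⟨∑ w, MonoidAlgebra.single w ((bb Φ.T).repr h (w, 0, 0)), ?_⟩
  have e1 : MonoidAlgebra.lift ℂ H W Φ.T.u
      (∑ w, MonoidAlgebra.single w ((bb Φ.T).repr h (w, 0, 0))) =
      ∑ w, (bb Φ.T).repr h (w, 0, 0) • bb Φ.T (w, 0, 0) := by
    rw [map_sum]
    refine Finset.sum_congr rfl fun w _ => ?_
    rw [MonoidAlgebra.lift_single, bb_apply]
    simp
  rw [e1]
  -- the difference has no coordinates at `(w, 0, 0)`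
  set g : H := h - ∑ w, (bb Φ.T).repr h (w, 0, 0) • bb Φ.T (w, 0, 0) with hg
  have hg0 : g ∈ Hm Φ 0 := by
    refine Submodule.sub_mem _ h0 (Submodule.sum_mem _ fun w _ => Submodule.smul_mem _ _ ?_)
    have := bb_Hm Φ (w, (0 : Fin n →₀ ℕ), (0 : Fin n →₀ ℕ))
    have e : dg (w, (0 : Fin n →₀ ℕ), (0 : Fin n →₀ ℕ)) = 0 := by simp [dg]
    rwa [e] at this
  have hg1 : ∀ w, (bb Φ.T).repr g (w, 0, 0) = 0 := by
    intro w
    rw [hg, map_sub, Finsupp.sub_apply, map_sum, Finsupp.finsetSum_apply,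
      Finset.sum_eq_single w]
    · rw [map_smul, Finsupp.smul_apply, Module.Basis.repr_self, Finsupp.single_eq_same,
        smul_eq_mul, mul_one, sub_self]
    · intro b _ hb
      rw [map_smul, Finsupp.smul_apply, Module.Basis.repr_self, Finsupp.single_eq_of_ne, smul_zero]
      intro h
      exact hb (congrArg Prod.fst h).symm
    · intro h
      exact absurd (Finset.mem_univ _) h
  rw [← (bb Φ.T).linearCombination_repr g, Finsupp.linearCombination_apply, Finsupp.sum]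
  refine Submodule.sum_mem _ fun x hx => ?_
  have hx' := Finsupp.mem_support_iff.1 hx
  have hd := repr_Hm Φ hg0 hx'
  obtain ⟨w, α, β⟩ := x
  have hβ : β ≠ 0 := by
    rintro rfl
    have hα : α = 0 := by
      simp only [dg] at hd
      rw [map_zero] at hd
      have h3 : α.degree = 0 := by simpa using hd
      exact (Finsupp.degree_eq_zero_iff α).1 h3
    rw [hα] at hx'
    exact hx' (hg1 w)
  rw [Algebra.smul_def]
  exact Submodule.smul_mem _ _ (bb_Ly Φ hβ)

theorem om3 (z : H) (hz : ∀ h, z * h = h * z) (a : MonoidAlgebra ℂ W)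
    (h : z - MonoidAlgebra.lift ℂ H W Φ.T.u a ∈ Ly Φ) (b : MonoidAlgebra ℂ W) :
    a * b = b * a := by
  have h1 : a * b - b * a = 0 := by
    apply lift_zero Φ
    rw [map_sub, map_mul, map_mul]
    have e : MonoidAlgebra.lift ℂ H W Φ.T.u a * MonoidAlgebra.lift ℂ H W Φ.T.u b -
        MonoidAlgebra.lift ℂ H W Φ.T.u b * MonoidAlgebra.lift ℂ H W Φ.T.u a =
        MonoidAlgebra.lift ℂ H W Φ.T.u b * (z - MonoidAlgebra.lift ℂ H W Φ.T.u a) -
          (z - MonoidAlgebra.lift ℂ H W Φ.T.u a) * MonoidAlgebra.lift ℂ H W Φ.T.u b := by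
      rw [mul_sub, sub_mul, hz]
      abel
    rw [e]
    exact Submodule.sub_mem _ (Submodule.smul_mem _ _ h) (Ly_lift Φ h b)
  exact sub_eq_zero.1 h1

theorem om4 (z z' : H) (a a' : MonoidAlgebra ℂ W)
    (h : z - MonoidAlgebra.lift ℂ H W Φ.T.u a ∈ Ly Φ)
    (h' : z' - MonoidAlgebra.lift ℂ H W Φ.T.u a' ∈ Ly Φ) :
    z * z' - MonoidAlgebra.lift ℂ H W Φ.T.u (a * a') ∈ Ly Φ := by
  rw [map_mul]
  have e : z * z' - MonoidAlgebra.lift ℂ H W Φ.T.u a * MonoidAlgebra.lift ℂ H W Φ.T.u a' =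
      z * (z' - MonoidAlgebra.lift ℂ H W Φ.T.u a') +
        (z - MonoidAlgebra.lift ℂ H W Φ.T.u a) * MonoidAlgebra.lift ℂ H W Φ.T.u a' := by
    rw [mul_sub, sub_mul]
    abel
  rw [e]
  exact Submodule.add_mem _ (Submodule.smul_mem _ _ h') (Ly_lift Φ h a')

theorem γ_inv (s : ℂˣ) (h : H) : Φ.γ s (Φ.γ s⁻¹ h) = h := by
  have key : (Φ.γ s).toLinearMap ∘ₗ (Φ.γ s⁻¹).toLinearMap = LinearMap.id := by
    refine (bb Φ.T).ext fun y => ?_
    rw [LinearMap.comp_apply, AlgHom.toLinearMap_apply, AlgHom.toLinearMap_apply, γ_bb, map_smul,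
      γ_bb, smul_smul, ← Units.val_mul, inv_zpow, inv_mul_cancel, Units.val_one, one_smul,
      LinearMap.id_apply]
  exact LinearMap.congr_fun key h

theorem om5 (s : ℂˣ) (z : H) (hz : ∀ h, z * h = h * z) (h : H) : Φ.γ s z * h = h * Φ.γ s z := by
  rw [← γ_inv Φ s h, ← map_mul, ← map_mul, hz]

theorem cen (z : Zc H) (h : H) : (z : H) * h = h * z :=
  ((Subalgebra.mem_center_iff.1 z.2) h).symm

theorem mem_cen {z : H} (hz : ∀ h, z * h = h * z) : z ∈ Zc H :=
  Subalgebra.mem_center_iff.2 fun h => (hz h).symm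

end Pool.Agent.V5helper19.CM.Om

namespace Pool.Agent.V5helper19.CM

open Pool.Agent.V5helper32.CM MvPolynomial Om

theorem t_OM : S_OM := by
  intro n W _ _ D H _ _ Φ
  refine ⟨om1 Φ, fun a h => lift_zero Φ h, fun z a h b => om3 Φ z (cen z) a h b,
    fun z z' a a' h h' => om4 Φ z z' a a' h h', fun s z => mem_cen (om5 Φ s z (cen z)),
    fun z => ?_⟩
  obtain ⟨J, hJ⟩ := pc_sum Φ (z : H)
  refine ⟨J, fun d => ⟨pc Φ d z, mem_cen (pc_central Φ d (cen z))⟩, ?_, fun d s => ?_⟩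
  · apply Subtype.ext
    rw [AddSubmonoidClass.coe_finsetSum]
    exact hJ
  · exact pc_mem Φ d z s

theorem t_GRD : S_GRD := by
  intro n W _ _ D H _ _ Φ
  let 𝒟 : ℤ → Submodule ℂ (Zc H) := fun d => (Hm Φ d).comap (Zc H).val.toLinearMap
  have h𝒟 : ∀ d (z : Zc H), z ∈ 𝒟 d ↔ ∀ s, Φ.γ s z = ((s ^ d : ℂˣ) : ℂ) • (z : H) :=
    fun d z => Iff.rfl
  refine ⟨𝒟, ?_, h𝒟⟩
  -- components
  let cp : ∀ (d : ℤ), Zc H → Zc H := fun d z => ⟨pc Φ d z, mem_cen (pc_central Φ d (cen z))⟩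
  have hcp : ∀ d z, cp d z ∈ 𝒟 d := fun d z => pc_mem Φ d z
  have hcp2 : ∀ d k z, z ∈ 𝒟 k → cp d z = if k = d then z else 0 := by
    intro d k z hz
    apply Subtype.ext
    change pc Φ d z = _
    rw [pc_of_mem Φ (show (z : H) ∈ Hm Φ k from hz)]
    split_ifs <;> rfl
  have hint : DirectSum.IsInternal 𝒟 := by
    rw [DirectSum.isInternal_submodule_iff_iSupIndep_and_iSup_eq_top]
    constructor
    · -- eigenspaces of the grading automorphism of `2`
      let g : Module.End ℂ (Zc H) :=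
        { toFun := fun z => ⟨Φ.γ u2 z, mem_cen (om5 Φ u2 z (cen z))⟩
          map_add' := fun a b => Subtype.ext (map_add _ _ _)
          map_smul' := fun c a => Subtype.ext (map_smul (Φ.γ u2) c (a : H)) }
      have h1 := (Module.End.eigenspaces_iSupIndep g).comp
        (f := fun d : ℤ => (2 : ℂ) ^ d) fun a b h => two_inj h
      refine h1.mono fun d z hz => ?_
      rw [Function.comp_apply, Module.End.mem_eigenspace_iff]
      apply Subtype.ext
      have h2 := hz u2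
      rw [u2_zpow] at h2
      exact h2
    · rw [eq_top_iff]
      intro z _
      obtain ⟨J, hJ⟩ := pc_sum Φ (z : H)
      have e : z = ∑ d ∈ J, cp d z := by
        apply Subtype.ext
        rw [AddSubmonoidClass.coe_finsetSum]
        exact hJ
      rw [e]
      exact Submodule.sum_mem _ fun d _ => Submodule.mem_iSup_of_mem d (hcp d z)
  have hgm : SetLike.GradedMonoid 𝒟 :=
    { one_mem := by
        intro s
        change Φ.γ s ((1 : Zc H) : H) = ((s ^ (0 : ℤ) : ℂˣ) : ℂ) • ((1 : Zc H) : H)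
        rw [OneMemClass.coe_one, map_one, zpow_zero, Units.val_one, one_smul]
      mul_mem := fun d e a b ha hb => mul_Hm Φ ha hb }
  exact ⟨{ hgm with toDecomposition := hint.chooseDecomposition }⟩

end Pool.Agent.V5helper19.CM
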