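import Pool.Agent.V5helper32.CM.Stm2

set_option autoImplicit false

/-!
# Project CM: the PBW basis and the grading (used in the jobs OM, GRD)
-/

namespace Pool.Agent.V5helper19.CM.Om

open Pool.Agent.V5helper32.CM MvPolynomial
open scoped TensorProduct

variable {n : ℕ} {W : Type} [Group W] [Fintype W] {D : Rd n W} {H : Type} [Ring H] [Algebra ℂ H]

omit [Fintype W] in
theorem mu_apply (i j : MvPolynomial (Fin n) ℂ →ₐ[ℂ] H) (u : W →* H) (w : W)
    (f g : MvPolynomial (Fin n) ℂ) : mu i j u w (f ⊗ₜ[ℂ] g) = i f * u w * j g := by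
  simp [mu]

/-- the PBW map as a linear equivalence -/
noncomputable def Th (T : Tri D.ρ H) :
    (W → MvPolynomial (Fin n) ℂ ⊗[ℂ] MvPolynomial (Fin n) ℂ) ≃ₗ[ℂ] H :=
  LinearEquiv.ofBijective
    { toFun := fun q => ∑ w, mu T.i T.j T.u w (q w)
      map_add' := by
        intro q q'
        simp only [Pi.add_apply, map_add, Finset.sum_add_distrib]
      map_smul' := by
        intro c q
        simp only [Pi.smul_apply, map_smul, RingHom.id_apply, Finset.smul_sum] } T.pbw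

/-- indices of the PBW basis -/
abbrev Ix (n : ℕ) (W : Type) := W × (Fin n →₀ ℕ) × (Fin n →₀ ℕ)

/-- the PBW basis -/
noncomputable def bb (T : Tri D.ρ H) : Module.Basis (Ix n W) ℂ H :=
  ((Pi.basis fun _ : W => (basisMonomials (Fin n) ℂ).tensorProduct
    (basisMonomials (Fin n) ℂ)).map (Th T)).reindex (Equiv.sigmaEquivProd _ _)

open Classical in
theorem bb_apply (T : Tri D.ρ H) (w : W) (α β : Fin n →₀ ℕ) :
    bb T (w, α, β) = T.i (monomial α 1) * T.u w * T.j (monomial β 1) := by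
  rw [bb, Module.Basis.reindex_apply, Module.Basis.map_apply]
  have e : (Equiv.sigmaEquivProd W ((Fin n →₀ ℕ) × (Fin n →₀ ℕ))).symm (w, α, β) =
      ⟨w, (α, β)⟩ := rfl
  rw [e, Pi.basis_apply, Module.Basis.tensorProduct_apply, coe_basisMonomials]
  change ∑ w', mu T.i T.j T.u w' ((Pi.single w (monomial α 1 ⊗ₜ[ℂ] monomial β 1) :
    W → MvPolynomial (Fin n) ℂ ⊗[ℂ] MvPolynomial (Fin n) ℂ) w') = _
  rw [Finset.sum_eq_single w]
  · rw [Pi.single_eq_same, mu_apply]
  · intro b _ hb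
    rw [Pi.single_eq_of_ne hb, map_zero]
  · intro h
    exact absurd (Finset.mem_univ _) h

/-- the degree of a basis element -/
noncomputable def dg (x : Ix n W) : ℤ := (x.2.1.degree : ℤ) - (x.2.2.degree : ℤ)

theorem two_inj {a b : ℤ} (h : (2 : ℂ) ^ a = 2 ^ b) : a = b := by
  have h1 := congrArg (fun z : ℂ => ‖z‖) h
  simp only [norm_zpow, Complex.norm_ofNat] at h1
  exact zpow_right_injective₀ (by norm_num) (by norm_num) h1

/-- the unit `2` -/
noncomputable def u2 : ℂˣ := Units.mk0 2 two_ne_zero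

theorem u2_zpow (d : ℤ) : ((u2 ^ d : ℂˣ) : ℂ) = 2 ^ d := by
  rw [Units.val_zpow_eq_zpow_val]; rfl

section
variable (Φ : Full D H)

/-- scaling of the variables -/
noncomputable def sc (n : ℕ) (s : ℂ) : MvPolynomial (Fin n) ℂ →ₐ[ℂ] MvPolynomial (Fin n) ℂ :=
  aeval fun a => s • X a

theorem sc_monomial (s : ℂ) (α : Fin n →₀ ℕ) :
    sc n s (monomial α 1) = s ^ α.degree • monomial α 1 := by
  rw [sc, aeval_monomial, map_one, one_mul]
  have e : (monomial α (1 : ℂ)) = α.prod fun i k => X i ^ k := by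
    rw [monomial_eq, C_1, one_mul]
  rw [e, Finsupp.prod, Finsupp.prod]
  simp only [smul_pow]
  rw [Finset.prod_smul]
  congr 1
  rw [Finset.prod_pow_eq_pow_sum, Finsupp.degree_apply]

theorem γ_i (s : ℂˣ) (f : MvPolynomial (Fin n) ℂ) : Φ.γ s (Φ.T.i f) = Φ.T.i (sc n s f) := by
  have h : (Φ.γ s).comp Φ.T.i = Φ.T.i.comp (sc n s) := by
    apply MvPolynomial.algHom_ext
    intro a
    simp [sc, Φ.γi]
  exact DFunLike.congr_fun h f

theorem γ_j (s : ℂˣ) (f : MvPolynomial (Fin n) ℂ) :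
    Φ.γ s (Φ.T.j f) = Φ.T.j (sc n ((s⁻¹ : ℂˣ) : ℂ) f) := by
  have h : (Φ.γ s).comp Φ.T.j = Φ.T.j.comp (sc n ((s⁻¹ : ℂˣ) : ℂ)) := by
    apply MvPolynomial.algHom_ext
    intro a
    rw [AlgHom.comp_apply, AlgHom.comp_apply, sc, aeval_X, map_smul, Φ.γj]
  exact DFunLike.congr_fun h f

theorem γ_bb (s : ℂˣ) (x : Ix n W) :
    Φ.γ s (bb Φ.T x) = ((s ^ dg x : ℂˣ) : ℂ) • bb Φ.T x := by
  obtain ⟨w, α, β⟩ := x
  rw [bb_apply, map_mul, map_mul, γ_i, γ_j, Φ.γu, sc_monomial, sc_monomial, map_smul, map_smul,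
    smul_mul_assoc, smul_mul_assoc, mul_smul_comm, smul_smul]
  congr 1
  change ((s : ℂ) ^ α.degree) * (((s⁻¹ : ℂˣ) : ℂ) ^ β.degree) =
    ((s ^ ((α.degree : ℤ) - (β.degree : ℤ)) : ℂˣ) : ℂ)
  rw [zpow_sub, zpow_natCast, zpow_natCast, Units.val_mul, Units.val_pow_eq_pow_val,
    ← inv_pow, Units.val_pow_eq_pow_val]

theorem repr_γ (s : ℂˣ) (h : H) (x : Ix n W) :
    (bb Φ.T).repr (Φ.γ s h) x = ((s ^ dg x : ℂˣ) : ℂ) * (bb Φ.T).repr h x := by
  have key : (Finsupp.lapply x ∘ₗ (bb Φ.T).repr.toLinearMap ∘ₗ (Φ.γ s).toLinearMap : H →ₗ[ℂ] ℂ) =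
      ((s ^ dg x : ℂˣ) : ℂ) • (Finsupp.lapply x ∘ₗ (bb Φ.T).repr.toLinearMap : H →ₗ[ℂ] ℂ) := by
    refine (bb Φ.T).ext fun y => ?_
    simp only [LinearMap.comp_apply, AlgHom.toLinearMap_apply, LinearEquiv.coe_coe,
      Finsupp.lapply_apply, LinearMap.smul_apply, γ_bb, map_smul,
      Module.Basis.repr_self, smul_eq_mul]
    by_cases hxy : y = x
    · rw [hxy]
    · rw [Finsupp.single_eq_of_ne (Ne.symm hxy), mul_zero, mul_zero]
  exact LinearMap.congr_fun key h

/-- homogeneous elements -/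
def Hm (d : ℤ) : Submodule ℂ H where
  carrier := {h | ∀ s, Φ.γ s h = ((s ^ d : ℂˣ) : ℂ) • h}
  add_mem' := by
    intro a b ha hb s
    rw [map_add, ha s, hb s, smul_add]
  zero_mem' := by
    intro s
    rw [map_zero, smul_zero]
  smul_mem' := by
    intro c a ha s
    rw [map_smul, ha s, smul_comm]

theorem mem_Hm {d : ℤ} {h : H} : h ∈ Hm Φ d ↔ ∀ s, Φ.γ s h = ((s ^ d : ℂˣ) : ℂ) • h := Iff.rfl

theorem bb_Hm (x : Ix n W) : bb Φ.T x ∈ Hm Φ (dg x) := fun s => γ_bb Φ s x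

theorem mul_Hm {d e : ℤ} {a b : H} (ha : a ∈ Hm Φ d) (hb : b ∈ Hm Φ e) : a * b ∈ Hm Φ (d + e) := by
  intro s
  rw [map_mul, ha s, hb s, smul_mul_smul_comm, zpow_add, Units.val_mul]

/-- coordinates of homogeneous elements -/
theorem repr_Hm {d : ℤ} {h : H} (hh : h ∈ Hm Φ d) {x : Ix n W}
    (hx : (bb Φ.T).repr h x ≠ 0) : dg x = d := by
  have h1 := repr_γ Φ u2 h x
  rw [hh u2, map_smul, Finsupp.smul_apply, smul_eq_mul, u2_zpow, u2_zpow] at h1
  exact (two_inj (mul_right_cancel₀ hx h1)).symm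

/-- the homogeneous component -/
noncomputable def pc (d : ℤ) : H →ₗ[ℂ] H :=
  (bb Φ.T).constr ℂ fun x => if dg x = d then bb Φ.T x else 0

theorem pc_bb (d : ℤ) (x : Ix n W) :
    pc Φ d (bb Φ.T x) = if dg x = d then bb Φ.T x else 0 := by
  rw [pc, Module.Basis.constr_basis]

theorem pc_mem (d : ℤ) (h : H) : pc Φ d h ∈ Hm Φ d := by
  intro s
  have key : (Φ.γ s).toLinearMap ∘ₗ pc Φ d = ((s ^ d : ℂˣ) : ℂ) • pc Φ d := by
    refine (bb Φ.T).ext fun y => ?_
    rw [LinearMap.comp_apply, LinearMap.smul_apply, pc_bb]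
    by_cases hy : dg y = d
    · rw [if_pos hy, AlgHom.toLinearMap_apply, γ_bb, hy]
    · rw [if_neg hy, map_zero, smul_zero]
  exact LinearMap.congr_fun key h

theorem pc_of_mem {d k : ℤ} {h : H} (hh : h ∈ Hm Φ k) : pc Φ d h = if k = d then h else 0 := by
  rw [pc, Module.Basis.constr_apply, Finsupp.sum]
  have h1 : ∀ x ∈ ((bb Φ.T).repr h).support,
      (bb Φ.T).repr h x • (if dg x = d then bb Φ.T x else 0) =
        if k = d then (bb Φ.T).repr h x • bb Φ.T x else 0 := by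
    intro x hx
    rw [repr_Hm Φ hh (Finsupp.mem_support_iff.1 hx)]
    by_cases hk : k = d
    · rw [if_pos hk, if_pos hk]
    · rw [if_neg hk, if_neg hk, smul_zero]
  rw [Finset.sum_congr rfl h1]
  by_cases hk : k = d
  · simp only [if_pos hk]
    exact (bb Φ.T).linearCombination_repr h
  · simp only [if_neg hk]
    exact Finset.sum_const_zero

theorem pc_sum (h : H) : ∃ J : Finset ℤ, h = ∑ d ∈ J, pc Φ d h := by
  classical
  refine ⟨((bb Φ.T).repr h).support.image dg, ?_⟩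
  have h1 : ∀ d, pc Φ d h = ∑ x ∈ ((bb Φ.T).repr h).support,
      (bb Φ.T).repr h x • (if dg x = d then bb Φ.T x else 0) := by
    intro d
    rw [pc, Module.Basis.constr_apply, Finsupp.sum]
  simp only [h1]
  rw [Finset.sum_comm]
  conv_lhs => rw [← (bb Φ.T).linearCombination_repr h, Finsupp.linearCombination_apply,
    Finsupp.sum]
  refine Finset.sum_congr rfl fun x hx => ?_
  rw [← Finset.smul_sum, Finset.sum_ite_eq, if_pos (Finset.mem_image_of_mem _ hx)]

/-- components of a product with a homogeneous element -/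
theorem pc_mul {d e : ℤ} {x : H} (hx : x ∈ Hm Φ e) (z : H) :
    pc Φ (d + e) (z * x) = pc Φ d z * x := by
  have key : pc Φ (d + e) ∘ₗ LinearMap.mulRight ℂ x = LinearMap.mulRight ℂ x ∘ₗ pc Φ d := by
    refine (bb Φ.T).ext fun y => ?_
    rw [LinearMap.comp_apply, LinearMap.comp_apply, LinearMap.mulRight_apply,
      LinearMap.mulRight_apply, pc_bb, pc_of_mem Φ (mul_Hm Φ (bb_Hm Φ y) hx)]
    by_cases hy : dg y = d
    · rw [if_pos hy, if_pos (by rw [hy])]
    · rw [if_neg hy, if_neg (fun h => hy (add_right_cancel h)), zero_mul]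
  exact LinearMap.congr_fun key z

theorem mul_pc {d e : ℤ} {x : H} (hx : x ∈ Hm Φ e) (z : H) :
    pc Φ (d + e) (x * z) = x * pc Φ d z := by
  have key : pc Φ (d + e) ∘ₗ LinearMap.mulLeft ℂ x = LinearMap.mulLeft ℂ x ∘ₗ pc Φ d := by
    refine (bb Φ.T).ext fun y => ?_
    rw [LinearMap.comp_apply, LinearMap.comp_apply, LinearMap.mulLeft_apply,
      LinearMap.mulLeft_apply, pc_bb, pc_of_mem Φ (mul_Hm Φ hx (bb_Hm Φ y))]
    by_cases hy : dg y = d
    · rw [if_pos hy, if_pos (by rw [hy, add_comm])]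
    · rw [if_neg hy, if_neg (fun h => hy (by linarith)), mul_zero]
  exact LinearMap.congr_fun key z

/-- components of central elements are central -/
theorem pc_central (d : ℤ) {z : H} (hz : ∀ h, z * h = h * z) (h : H) :
    pc Φ d z * h = h * pc Φ d z := by
  have key : LinearMap.mulLeft ℂ (pc Φ d z) = LinearMap.mulRight ℂ (pc Φ d z) := by
    refine (bb Φ.T).ext fun y => ?_
    rw [LinearMap.mulLeft_apply, LinearMap.mulRight_apply, ← pc_mul Φ (bb_Hm Φ y),
      ← mul_pc Φ (bb_Hm Φ y), hz]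
  exact LinearMap.congr_fun key h

/-! ## The left ideal of the `y`'s -/

/-- the left ideal generated by the `y_b` -/
noncomputable abbrev Ly : Submodule H H := Submodule.span H (Set.range fun b => Φ.T.j (X b))

theorem bb_Ly {w : W} {α β : Fin n →₀ ℕ} (hβ : β ≠ 0) : bb Φ.T (w, α, β) ∈ Ly Φ := by
  obtain ⟨b, hb⟩ := Finsupp.ne_iff.1 hβ
  rw [Finsupp.zero_apply] at hb
  have e : β = (β - Finsupp.single b 1) + Finsupp.single b 1 := by
    ext a
    simp only [Finsupp.coe_add, Finsupp.coe_tsub, Pi.add_apply, Pi.sub_apply]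
    by_cases hab : a = b
    · subst hab
      rw [Finsupp.single_eq_same]
      omega
    · rw [Finsupp.single_eq_of_ne hab]
      omega
  have e2 : (monomial β (1 : ℂ)) = monomial (β - Finsupp.single b 1) 1 * X b := by
    rw [X, monomial_mul, one_mul, ← e]
  rw [bb_apply, e2, map_mul, ← mul_assoc]
  exact Submodule.smul_mem _ _ (Submodule.subset_span ⟨b, rfl⟩)

/-- coordinates of the elements of the left ideal -/
theorem repr_Ly {h : H} (hh : h ∈ Ly Φ) (w : W) (α : Fin n →₀ ℕ) :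
    (bb Φ.T).repr h (w, α, 0) = 0 := by
  obtain ⟨c, hc⟩ := (Submodule.mem_span_range_iff_exists_fun H).1 hh
  rw [← hc, map_sum, Finsupp.finsetSum_apply]
  refine Finset.sum_eq_zero fun b _ => ?_
  rw [smul_eq_mul]
  have key : (Finsupp.lapply (w, α, (0 : Fin n →₀ ℕ)) ∘ₗ (bb Φ.T).repr.toLinearMap ∘ₗ
      LinearMap.mulRight ℂ (Φ.T.j (X b)) : H →ₗ[ℂ] ℂ) = 0 := by
    refine (bb Φ.T).ext fun y => ?_
    obtain ⟨w', α', β'⟩ := y
    have e2 : bb Φ.T (w', α', β') * Φ.T.j (X b) =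
        bb Φ.T (w', α', β' + Finsupp.single b 1) := by
      rw [bb_apply, bb_apply, mul_assoc, ← map_mul, X, monomial_mul, one_mul]
    rw [LinearMap.comp_apply, LinearMap.comp_apply, LinearMap.mulRight_apply, e2,
      LinearEquiv.coe_coe, Module.Basis.repr_self, Finsupp.lapply_apply, LinearMap.zero_apply,
      Finsupp.single_eq_of_ne]
    intro h
    have h2 := congrArg (fun q : Ix n W => q.2.2 b) h
    simp at h2
  exact LinearMap.congr_fun key (c b)

theorem lift_eq (a : MonoidAlgebra ℂ W) :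
    MonoidAlgebra.lift ℂ H W Φ.T.u a = ∑ w, a.coeff w • bb Φ.T (w, 0, 0) := by
  rw [MonoidAlgebra.lift_apply, Finsupp.sum_fintype]
  · refine Finset.sum_congr rfl fun w _ => ?_
    rw [bb_apply]
    simp
  · intro w
    rw [zero_smul]

theorem lift_zero {a : MonoidAlgebra ℂ W} (h : MonoidAlgebra.lift ℂ H W Φ.T.u a ∈ Ly Φ) :
    a = 0 := by
  classical
  ext w
  have h1 := repr_Ly Φ h w 0
  rw [lift_eq, map_sum, Finsupp.finsetSum_apply, Finset.sum_eq_single w] at h1
  · rw [map_smul, Finsupp.smul_apply, Module.Basis.repr_self, Finsupp.single_eq_same,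
      smul_eq_mul, mul_one] at h1
    rw [h1]
    rfl
  · intro b _ hb
    rw [map_smul, Finsupp.smul_apply, Module.Basis.repr_self, Finsupp.single_eq_of_ne, smul_zero]
    intro h
    exact hb (congrArg Prod.fst h).symm
  · intro h
    exact absurd (Finset.mem_univ _) h

/-- the left ideal is stable under right multiplication by group elements -/
theorem Ly_u {h : H} (hh : h ∈ Ly Φ) (w : W) : h * Φ.T.u w ∈ Ly Φ := by
  obtain ⟨c, hc⟩ := (Submodule.mem_span_range_iff_exists_fun H).1 hh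
  rw [← hc, Finset.sum_mul]
  refine Submodule.sum_mem _ fun b _ => ?_
  rw [smul_eq_mul, mul_assoc]
  refine Submodule.smul_mem _ _ ?_
  -- `j (X b) * u w = u w * j (act (dualG (ρ w))⁻¹ X b)`
  have h1 := Φ.T.uj w (act (dualG (D.ρ w⁻¹)) (X b))
  have h2 : act (dualG (D.ρ w)) (act (dualG (D.ρ w⁻¹)) (X b)) = X b := by
    simp only [act, aeval_X, map_sum, map_mul, algHom_C, algebraMap_eq]
    have e : ∀ x : Fin n, C (((dualG (D.ρ w⁻¹))⁻¹).val b x) *
        ∑ j, C (((dualG (D.ρ w))⁻¹).val x j) * X j =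
        ∑ j, C (((dualG (D.ρ w⁻¹))⁻¹).val b x * ((dualG (D.ρ w))⁻¹).val x j) *
          (X j : MvPolynomial (Fin n) ℂ) := by
      intro x
      rw [Finset.mul_sum]
      refine Finset.sum_congr rfl fun j _ => ?_
      rw [C_mul, mul_assoc]
    simp only [e]
    rw [Finset.sum_comm]
    have e2 : ∀ j : Fin n, ∑ x, C (((dualG (D.ρ w⁻¹))⁻¹).val b x * ((dualG (D.ρ w))⁻¹).val x j) *
          (X j : MvPolynomial (Fin n) ℂ) = C ((1 : Matrix (Fin n) (Fin n) ℂ) b j) * X j := by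
      intro j
      rw [← Finset.sum_mul, ← map_sum]
      congr 2
      have e3 : ((dualG (D.ρ w⁻¹))⁻¹).val * ((dualG (D.ρ w))⁻¹).val = 1 := by
        rw [← Units.val_mul, ← mul_inv_rev, ← map_mul, ← map_mul, mul_inv_cancel, map_one, map_one,
          inv_one, Units.val_one]
      rw [← e3, Matrix.mul_apply]
    simp only [e2]
    rw [Finset.sum_eq_single b]
    · rw [Matrix.one_apply_eq, C_1, one_mul]
    · intro j _ hj
      rw [Matrix.one_apply_ne (Ne.symm hj), C_0, zero_mul]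
    · intro h
      exact absurd (Finset.mem_univ _) h
  rw [h2] at h1
  rw [← h1]
  refine Submodule.smul_mem _ _ ?_
  simp only [act, aeval_X, map_sum, map_mul]
  refine Submodule.sum_mem _ fun x _ => ?_
  exact Submodule.smul_mem _ _ (Submodule.subset_span ⟨x, rfl⟩)

theorem Ly_lift {h : H} (hh : h ∈ Ly Φ) (a : MonoidAlgebra ℂ W) :
    h * MonoidAlgebra.lift ℂ H W Φ.T.u a ∈ Ly Φ := by
  rw [MonoidAlgebra.lift_apply, Finsupp.sum, Finset.mul_sum]
  refine Submodule.sum_mem _ fun w _ => ?_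
  rw [mul_smul_comm, Algebra.smul_def]
  exact Submodule.smul_mem _ _ (Ly_u Φ hh w)

end

end Pool.Agent.V5helper19.CM.Om
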