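import Pool.Agent.V5helper32.CM.Stm3

set_option autoImplicit false

/-!
# Project CM: the presented algebra in coordinates (job RUN)
-/

namespace Pool.Agent.V5helper19.CM.Run

open Pool.Agent.V5helper32.CM

variable {V : Type} [AddCommGroup V] [Module ℂ V] {n : ℕ} (b : Module.Basis (Fin n) ℂ V)
  {W : Subgroup (V ≃ₗ[ℂ] V)} {κ : V → Module.Dual ℂ V → W → ℂ}

/-- the generators `x` as a linear map -/
noncomputable def Xl (κ : V → Module.Dual ℂ V → W → ℂ) : Module.Dual ℂ V →ₗ[ℂ] Rca W κ where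
  toFun := Rca.X κ
  map_add' ξ η := by
    unfold Rca.X
    rw [RingQuot.mkAlgHom_rel ℂ (Rel.x_add (κ := κ) ξ η), map_add]
  map_smul' c ξ := by
    unfold Rca.X
    rw [RingQuot.mkAlgHom_rel ℂ (Rel.x_smul (κ := κ) c ξ), map_smul, RingHom.id_apply]

/-- the generators `y` as a linear map -/
noncomputable def Yl (κ : V → Module.Dual ℂ V → W → ℂ) : V →ₗ[ℂ] Rca W κ where
  toFun := Rca.Y κ
  map_add' v v' := by
    unfold Rca.Y
    rw [RingQuot.mkAlgHom_rel ℂ (Rel.y_add (κ := κ) v v'), map_add]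
  map_smul' c v := by
    unfold Rca.Y
    rw [RingQuot.mkAlgHom_rel ℂ (Rel.y_smul (κ := κ) c v), map_smul, RingHom.id_apply]

theorem Xl_apply (ξ : Module.Dual ℂ V) : Xl κ ξ = Rca.X κ ξ := rfl
theorem Yl_apply (v : V) : Yl κ v = Rca.Y κ v := rfl

theorem G_X (w : W) (ξ : Module.Dual ℂ V) : Rca.G κ w * Rca.X κ ξ =
    Rca.X κ (ξ ∘ₗ ((w : V ≃ₗ[ℂ] V)⁻¹ : V ≃ₗ[ℂ] V).toLinearMap) * Rca.G κ w := by
  have h := RingQuot.mkAlgHom_rel ℂ (Rel.g_x (κ := κ) w ξ)
  rw [map_mul, map_mul] at h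
  exact h

theorem G_Y (w : W) (v : V) : Rca.G κ w * Rca.Y κ v =
    Rca.Y κ ((w : V ≃ₗ[ℂ] V) v) * Rca.G κ w := by
  have h := RingQuot.mkAlgHom_rel ℂ (Rel.g_y (κ := κ) w v)
  rw [map_mul, map_mul] at h
  exact h

theorem X_X (ξ η : Module.Dual ℂ V) : Rca.X κ ξ * Rca.X κ η = Rca.X κ η * Rca.X κ ξ := by
  have h := RingQuot.mkAlgHom_rel ℂ (Rel.x_x (κ := κ) ξ η)
  rw [map_mul, map_mul] at h
  exact h

theorem Y_Y (v v' : V) : Rca.Y κ v * Rca.Y κ v' = Rca.Y κ v' * Rca.Y κ v := by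
  have h := RingQuot.mkAlgHom_rel ℂ (Rel.y_y (κ := κ) v v')
  rw [map_mul, map_mul] at h
  exact h

theorem Y_X [Fintype W] (v : V) (ξ : Module.Dual ℂ V) :
    Rca.Y κ v * Rca.X κ ξ - Rca.X κ ξ * Rca.Y κ v = ∑ w, κ v ξ w • Rca.G κ w := by
  have h := RingQuot.mkAlgHom_rel ℂ (Rel.y_x (κ := κ) v ξ)
  rw [map_sub, map_mul, map_mul, finsum_eq_sum_of_fintype, map_sum] at h
  rw [← Rca.X, ← Rca.Y] at h
  rw [h]
  refine Finset.sum_congr rfl fun w _ => ?_
  rw [map_smul]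
  rfl

/-! ## Coordinates -/

/-- a linear form in terms of the coordinate functions -/
theorem form_eq (ξ : Module.Dual ℂ V) : ξ = ∑ a, ξ (b a) • b.coord a := by
  refine b.ext fun j => ?_
  rw [LinearMap.sum_apply, Finset.sum_eq_single j]
  · simp
  · intro i _ hi
    rw [LinearMap.smul_apply, Module.Basis.coord_apply, Module.Basis.repr_self,
      Finsupp.single_eq_of_ne hi, smul_zero]
  · intro h
    exact absurd (Finset.mem_univ _) h

theorem mat_apply (g : V ≃ₗ[ℂ] V) (i j : Fin n) : (matB b g).val i j = b.repr (g (b j)) i :=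
  LinearMap.toMatrix_apply b b (g : V →ₗ[ℂ] V) i j

theorem mat_inv_apply (g : V ≃ₗ[ℂ] V) (i j : Fin n) :
    ((matB b g)⁻¹).val i j = b.repr ((g⁻¹ : V ≃ₗ[ℂ] V) (b j)) i :=
  LinearMap.toMatrix_apply b b ((g⁻¹ : V ≃ₗ[ℂ] V) : V →ₗ[ℂ] V) i j

/-- a vector in terms of the basis -/
theorem vec_eq (g : V ≃ₗ[ℂ] V) (a : Fin n) : g (b a) = ∑ i, (matB b g).val i a • b i := by
  conv_lhs => rw [← b.sum_repr (g (b a))]
  simp only [mat_apply]

theorem vec_inv_eq (g : V ≃ₗ[ℂ] V) (a : Fin n) :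
    (g⁻¹ : V ≃ₗ[ℂ] V) (b a) = ∑ i, ((matB b g)⁻¹).val i a • b i := by
  conv_lhs => rw [← b.sum_repr ((g⁻¹ : V ≃ₗ[ℂ] V) (b a))]
  simp only [mat_inv_apply]

/-- transformed coordinate functions -/
theorem coord_comp (g : V ≃ₗ[ℂ] V) (a : Fin n) :
    b.coord a ∘ₗ ((g⁻¹ : V ≃ₗ[ℂ] V) : V →ₗ[ℂ] V) = ∑ j, ((matB b g)⁻¹).val a j • b.coord j := by
  rw [form_eq b (b.coord a ∘ₗ ((g⁻¹ : V ≃ₗ[ℂ] V) : V →ₗ[ℂ] V))]
  refine Finset.sum_congr rfl fun j _ => ?_
  rw [mat_inv_apply]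
  rfl

/-! ## The relations -/

/-- the relations in coordinates -/
noncomputable def rl [Fintype W] (c : W → ℂ)
    (hκ : ∀ v ξ w, κ v ξ w = c w * (ξ (((w : V ≃ₗ[ℂ] V)⁻¹ : V ≃ₗ[ℂ] V) v) - ξ v)) :
    ChRel ((matB b).comp W.subtype) c (Rca W κ) where
  x a := Rca.X κ (b.coord a)
  y a := Rca.Y κ (b a)
  u := Rca.G κ
  xx a a' := X_X _ _
  yy a a' := Y_Y _ _
  ux w a := by
    have e := coord_comp b (w : V ≃ₗ[ℂ] V) a
    rw [G_X]
    congr 1
    rw [← Xl_apply, e, map_sum]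
    refine Finset.sum_congr rfl fun j _ => ?_
    rw [map_smul]
    rfl
  uy w a := by
    rw [G_Y]
    congr 1
    rw [vec_eq b (w : V ≃ₗ[ℂ] V) a, ← Yl_apply, map_sum]
    refine Finset.sum_congr rfl fun j _ => ?_
    rw [map_smul]
    rfl
  yx a a' := by
    rw [Y_X]
    refine Finset.sum_congr rfl fun w _ => ?_
    congr 1
    rw [hκ]
    congr 2
    · exact (mat_inv_apply b (w : V ≃ₗ[ℂ] V) a' a).symm
    · rw [Module.Basis.coord_apply, Module.Basis.repr_self, Matrix.one_apply,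
        Finsupp.single_apply]
      simp only [eq_comm]

section univ
variable [Fintype W] {c : W → ℂ}
  {B : Type} [Ring B] [Algebra ℂ B] (R' : ChRel ((matB b).comp W.subtype) c B)

/-- the images of the generators `x` -/
noncomputable def fx : Module.Dual ℂ V →ₗ[ℂ] B where
  toFun ξ := ∑ a, ξ (b a) • R'.x a
  map_add' ξ η := by
    simp only [LinearMap.add_apply, add_smul, Finset.sum_add_distrib]
  map_smul' c ξ := by
    simp only [LinearMap.smul_apply, smul_assoc, Finset.smul_sum, RingHom.id_apply]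

/-- the images of the generators `y` -/
noncomputable def fy : V →ₗ[ℂ] B where
  toFun v := ∑ a, b.repr v a • R'.y a
  map_add' v v' := by
    simp only [map_add, Finsupp.add_apply, add_smul, Finset.sum_add_distrib]
  map_smul' c v := by
    simp only [map_smul, Finsupp.smul_apply, smul_assoc, Finset.smul_sum, RingHom.id_apply]

theorem fx_coord (a : Fin n) : fx b R' (b.coord a) = R'.x a := by
  change ∑ a', b.coord a (b a') • R'.x a' = _
  rw [Finset.sum_eq_single a]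
  · simp
  · intro i _ hi
    rw [Module.Basis.coord_apply, Module.Basis.repr_self, Finsupp.single_eq_of_ne (Ne.symm hi),
      zero_smul]
  · intro h
    exact absurd (Finset.mem_univ _) h

theorem fy_basis (a : Fin n) : fy b R' (b a) = R'.y a := by
  change ∑ a', b.repr (b a) a' • R'.y a' = _
  rw [Finset.sum_eq_single a]
  · simp
  · intro i _ hi
    rw [Module.Basis.repr_self, Finsupp.single_eq_of_ne hi, zero_smul]
  · intro h
    exact absurd (Finset.mem_univ _) h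

theorem fx_u (w : W) (ξ : Module.Dual ℂ V) : R'.u w * fx b R' ξ =
    fx b R' (ξ ∘ₗ ((w : V ≃ₗ[ℂ] V)⁻¹ : V ≃ₗ[ℂ] V).toLinearMap) * R'.u w := by
  -- both sides are linear in `ξ`
  have key : LinearMap.mulLeft ℂ (R'.u w) ∘ₗ fx b R' =
      LinearMap.mulRight ℂ (R'.u w) ∘ₗ fx b R' ∘ₗ
        LinearMap.lcomp ℂ ℂ ((w : V ≃ₗ[ℂ] V)⁻¹ : V ≃ₗ[ℂ] V).toLinearMap := by
    refine LinearMap.ext fun ξ => ?_
    rw [form_eq b ξ, map_sum, map_sum]
    refine Finset.sum_congr rfl fun a _ => ?_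
    rw [map_smul, map_smul]
    congr 1
    simp only [LinearMap.comp_apply, LinearMap.mulLeft_apply, LinearMap.mulRight_apply,
      LinearMap.lcomp_apply']
    rw [fx_coord, R'.ux]
    congr 1
    have e := coord_comp b (w : V ≃ₗ[ℂ] V) a
    rw [e, map_sum]
    refine Finset.sum_congr rfl fun j _ => ?_
    rw [map_smul, fx_coord]
    rfl
  exact LinearMap.congr_fun key ξ

theorem fy_u (w : W) (v : V) : R'.u w * fy b R' v =
    fy b R' ((w : V ≃ₗ[ℂ] V) v) * R'.u w := by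
  have key : LinearMap.mulLeft ℂ (R'.u w) ∘ₗ fy b R' =
      LinearMap.mulRight ℂ (R'.u w) ∘ₗ fy b R' ∘ₗ (w : V ≃ₗ[ℂ] V).toLinearMap := by
    refine b.ext fun a => ?_
    simp only [LinearMap.comp_apply, LinearMap.mulLeft_apply, LinearMap.mulRight_apply,
      LinearEquiv.coe_coe]
    rw [fy_basis, R'.uy, vec_eq b (w : V ≃ₗ[ℂ] V) a, map_sum]
    congr 1
    refine Finset.sum_congr rfl fun j _ => ?_
    rw [map_smul, fy_basis]
    rfl
  exact LinearMap.congr_fun key v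

theorem fx_fx (ξ η : Module.Dual ℂ V) : fx b R' ξ * fx b R' η = fx b R' η * fx b R' ξ := by
  change (∑ a, ξ (b a) • R'.x a) * (∑ a, η (b a) • R'.x a) =
    (∑ a, η (b a) • R'.x a) * (∑ a, ξ (b a) • R'.x a)
  rw [Finset.sum_mul_sum, Finset.sum_mul_sum, Finset.sum_comm]
  refine Finset.sum_congr rfl fun i _ => Finset.sum_congr rfl fun j _ => ?_
  rw [smul_mul_smul_comm, smul_mul_smul_comm, R'.xx, mul_comm]

theorem fy_fy (v v' : V) : fy b R' v * fy b R' v' = fy b R' v' * fy b R' v := by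
  change (∑ a, b.repr v a • R'.y a) * (∑ a, b.repr v' a • R'.y a) =
    (∑ a, b.repr v' a • R'.y a) * (∑ a, b.repr v a • R'.y a)
  rw [Finset.sum_mul_sum, Finset.sum_mul_sum, Finset.sum_comm]
  refine Finset.sum_congr rfl fun i _ => Finset.sum_congr rfl fun j _ => ?_
  rw [smul_mul_smul_comm, smul_mul_smul_comm, R'.yy, mul_comm]

theorem fy_fx (hκ : ∀ v ξ w, κ v ξ w = c w * (ξ (((w : V ≃ₗ[ℂ] V)⁻¹ : V ≃ₗ[ℂ] V) v) - ξ v))
    (v : V) (ξ : Module.Dual ℂ V) : fy b R' v * fx b R' ξ - fx b R' ξ * fy b R' v =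
      ∑ w, κ v ξ w • R'.u w := by
  -- bilinear in `v`, `ξ`
  have key1 : ∀ ξ : Module.Dual ℂ V,
      LinearMap.mulRight ℂ (fx b R' ξ) ∘ₗ fy b R' - LinearMap.mulLeft ℂ (fx b R' ξ) ∘ₗ fy b R' =
        ∑ w, c w • ((ξ ∘ₗ ((w : V ≃ₗ[ℂ] V)⁻¹ : V ≃ₗ[ℂ] V).toLinearMap - ξ).smulRight
          (R'.u w)) := by
    intro ξ
    refine b.ext fun a => ?_
    have key2 : LinearMap.mulLeft ℂ (R'.y a) ∘ₗ fx b R' - LinearMap.mulRight ℂ (R'.y a) ∘ₗ
        fx b R' = ∑ w, c w • (((LinearMap.applyₗ (((w : V ≃ₗ[ℂ] V)⁻¹ : V ≃ₗ[ℂ] V) (b a)) -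
          LinearMap.applyₗ (b a) : Module.Dual ℂ V →ₗ[ℂ] ℂ)).smulRight (R'.u w)) := by
      refine LinearMap.ext fun ξ => ?_
      rw [form_eq b ξ, map_sum, map_sum]
      refine Finset.sum_congr rfl fun a' _ => ?_
      rw [map_smul, map_smul]
      congr 1
      simp only [LinearMap.sub_apply, LinearMap.comp_apply, LinearMap.mulLeft_apply,
        LinearMap.mulRight_apply, LinearMap.sum_apply, LinearMap.smul_apply,
        LinearMap.smulRight_apply, LinearMap.applyₗ_apply_apply]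
      rw [fx_coord, R'.yx]
      refine Finset.sum_congr rfl fun w _ => ?_
      rw [smul_smul]
      congr 2
      congr 1
      · exact mat_inv_apply b (w : V ≃ₗ[ℂ] V) a' a
      · rw [Module.Basis.coord_apply, Module.Basis.repr_self, Matrix.one_apply,
          Finsupp.single_apply]
        simp only [eq_comm]
    have h2 := LinearMap.congr_fun key2 ξ
    simp only [LinearMap.sub_apply, LinearMap.comp_apply, LinearMap.mulLeft_apply,
      LinearMap.mulRight_apply, LinearMap.sum_apply, LinearMap.smul_apply,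
      LinearMap.smulRight_apply, LinearMap.applyₗ_apply_apply] at h2 ⊢
    rw [fy_basis, h2]
    rfl
  have h1 := LinearMap.congr_fun (key1 ξ) v
  simp only [LinearMap.sub_apply, LinearMap.comp_apply, LinearMap.mulLeft_apply,
    LinearMap.mulRight_apply, LinearMap.sum_apply, LinearMap.smul_apply,
    LinearMap.smulRight_apply] at h1
  rw [h1]
  refine Finset.sum_congr rfl fun w _ => ?_
  rw [smul_smul, hκ]
  rfl

/-- the homomorphism -/
noncomputable def lf (hκ : ∀ v ξ w, κ v ξ w = c w * (ξ (((w : V ≃ₗ[ℂ] V)⁻¹ : V ≃ₗ[ℂ] V) v) - ξ v)) :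
    Rca W κ →ₐ[ℂ] B :=
  RingQuot.liftAlgHom ℂ ⟨FreeAlgebra.lift ℂ (fun a : Gen V W => match a with
    | Gen.x ξ => fx b R' ξ
    | Gen.y v => fy b R' v
    | Gen.g w => R'.u w), by
    intro a a' h
    cases h with
    | x_add ξ η => simp only [map_add, FreeAlgebra.lift_ι_apply]
    | x_smul c ξ => simp only [map_smul, FreeAlgebra.lift_ι_apply]
    | y_add v v' => simp only [map_add, FreeAlgebra.lift_ι_apply]
    | y_smul c v => simp only [map_smul, FreeAlgebra.lift_ι_apply]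
    | g_one => simp
    | g_mul w w' => simp
    | g_x w ξ =>
      simp only [map_mul, FreeAlgebra.lift_ι_apply]
      exact fx_u b R' w ξ
    | g_y w v =>
      simp only [map_mul, FreeAlgebra.lift_ι_apply]
      exact fy_u b R' w v
    | x_x ξ η =>
      simp only [map_mul, FreeAlgebra.lift_ι_apply]
      exact fx_fx b R' ξ η
    | y_y v v' =>
      simp only [map_mul, FreeAlgebra.lift_ι_apply]
      exact fy_fy b R' v v'
    | y_x v ξ =>
      rw [finsum_eq_sum_of_fintype, map_sum]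
      simp only [map_sub, map_mul, map_smul, FreeAlgebra.lift_ι_apply]
      exact fy_fx b R' hκ v ξ⟩

theorem lf_X (hκ : ∀ v ξ w, κ v ξ w = c w * (ξ (((w : V ≃ₗ[ℂ] V)⁻¹ : V ≃ₗ[ℂ] V) v) - ξ v))
    (ξ : Module.Dual ℂ V) : lf b R' hκ (Rca.X κ ξ) = fx b R' ξ := by
  unfold lf Rca.X
  rw [RingQuot.liftAlgHom_mkAlgHom_apply, FreeAlgebra.lift_ι_apply]

theorem lf_Y (hκ : ∀ v ξ w, κ v ξ w = c w * (ξ (((w : V ≃ₗ[ℂ] V)⁻¹ : V ≃ₗ[ℂ] V) v) - ξ v))
    (v : V) : lf b R' hκ (Rca.Y κ v) = fy b R' v := by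
  unfold lf Rca.Y
  rw [RingQuot.liftAlgHom_mkAlgHom_apply, FreeAlgebra.lift_ι_apply]

theorem lf_G (hκ : ∀ v ξ w, κ v ξ w = c w * (ξ (((w : V ≃ₗ[ℂ] V)⁻¹ : V ≃ₗ[ℂ] V) v) - ξ v))
    (w : W) : lf b R' hκ (Rca.G κ w) = R'.u w := by
  change lf b R' hκ (RingQuot.mkAlgHom ℂ (Rel W κ) (FreeAlgebra.ι ℂ (Gen.g w))) = _
  unfold lf
  rw [RingQuot.liftAlgHom_mkAlgHom_apply, FreeAlgebra.lift_ι_apply]

end univ

/-- generation -/
theorem gen_top (S : Subalgebra ℂ (Rca W κ)) (hX : ∀ ξ, Rca.X κ ξ ∈ S) (hY : ∀ v, Rca.Y κ v ∈ S)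
    (hG : ∀ w, Rca.G κ w ∈ S) : S = ⊤ := by
  rw [eq_top_iff]
  intro h _
  obtain ⟨x, rfl⟩ := RingQuot.mkAlgHom_surjective ℂ (Rel W κ) h
  induction x using FreeAlgebra.induction with
  | grade0 c =>
    rw [AlgHom.commutes]
    exact S.algebraMap_mem c
  | grade1 o =>
    cases o with
    | x ξ => exact hX ξ
    | y v => exact hY v
    | g w => exact hG w
  | mul a b ha hb =>
    rw [map_mul]
    exact S.mul_mem (ha trivial) (hb trivial)
  | add a b ha hb =>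
    rw [map_add]
    exact S.add_mem (ha trivial) (hb trivial)

end Pool.Agent.V5helper19.CM.Run

namespace Pool.Agent.V5helper19.CM

open Pool.Agent.V5helper32.CM Run

theorem t_RUN : S_RUN := by
  intro V _ _ n b W _ c κ hκ
  refine ⟨rl b c hκ, fun a => rfl, fun a => rfl, rfl, fun B _ _ R' =>
    ⟨lf b R' hκ, fun a => ?_, fun a => ?_, fun w => lf_G b R' hκ w⟩, ?_⟩
  · exact (lf_X b R' hκ _).trans (fx_coord b R' a)
  · exact (lf_Y b R' hκ _).trans (fy_basis b R' a)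
  · refine gen_top _ (fun ξ => ?_) (fun v => ?_) fun w => ?_
    · rw [← Xl_apply, form_eq b ξ, map_sum]
      refine Subalgebra.sum_mem _ fun a _ => ?_
      rw [map_smul]
      refine Subalgebra.smul_mem _ ?_ _
      apply Algebra.subset_adjoin
      exact Or.inl (Or.inl ⟨a, rfl⟩)
    · rw [← Yl_apply, ← b.sum_repr v, map_sum]
      refine Subalgebra.sum_mem _ fun a _ => ?_
      rw [map_smul]
      refine Subalgebra.smul_mem _ ?_ _
      apply Algebra.subset_adjoin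
      exact Or.inl (Or.inr ⟨a, rfl⟩)
    · exact Algebra.subset_adjoin (Or.inr ⟨w, rfl⟩)

end Pool.Agent.V5helper19.CM
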