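import Pool.Agent.V5helper32.CM.Stm2

set_option autoImplicit false

/-!
# Project CM: finiteness over the parameters (job ZFIN)
-/

namespace Pool.Agent.V5helper19.CM.Zf

open Pool.Agent.V5helper32.CM MvPolynomial
open scoped TensorProduct

section
variable {Λ : Type} [Ring Λ] [Algebra ℂ Λ] {M : Type} [AddCommGroup M] [Module ℂ M] [Module Λ M]
  [IsScalarTower ℂ Λ M]

/-- subspaces which are stable under the values at the variables are stable under polynomials -/
theorem stable {n : ℕ} (a : MvPolynomial (Fin n) ℂ →ₐ[ℂ] Λ) (N : Submodule ℂ M)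
    (h : ∀ i, ∀ m ∈ N, a (X i) • m ∈ N) (q : MvPolynomial (Fin n) ℂ) : ∀ m ∈ N, a q • m ∈ N := by
  induction q using MvPolynomial.induction_on with
  | C c =>
    intro m hm
    rw [← algebraMap_eq, AlgHom.commutes, algebraMap_smul]
    exact N.smul_mem c hm
  | add p q hp hq =>
    intro m hm
    rw [map_add, add_smul]
    exact N.add_mem (hp m hm) (hq m hm)
  | mul_X p i hp =>
    intro m hm
    rw [map_mul, mul_smul]
    exact hp _ (h i m hm)

end

variable {n : ℕ} {W : Type} [Group W] [Fintype W] {D : Rd n W} {H : Type} [Ring H] [Algebra ℂ H]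
  {Λ : Type} [Ring Λ] [Algebra ℂ Λ] {Sp : Type} [AddCommGroup Sp] [Module ℂ Sp]
  [Module Λ Sp] [IsScalarTower ℂ Λ Sp] (A : Su D H Λ Sp)

theorem cen (z : Zc H) (h : H) : (z : H) * h = h * z :=
  ((Subalgebra.mem_center_iff.1 z.2) h).symm

include A in
theorem evF (q : MvPolynomial (Fin n) ℂ) : ((aeval A.F q : Zc H) : H) = A.Φ.T.i (aeval A.CF.f q) := by
  have h : (Zc H).val.comp (aeval A.F) = A.Φ.T.i.comp (aeval A.CF.f) := by
    apply MvPolynomial.algHom_ext
    intro a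
    rw [AlgHom.comp_apply, AlgHom.comp_apply, aeval_X, aeval_X]
    exact A.hF a
  exact DFunLike.congr_fun h q

include A in
theorem evG (q : MvPolynomial (Fin n) ℂ) : ((aeval A.G q : Zc H) : H) = A.Φ.T.j (aeval A.CG.f q) := by
  have h : (Zc H).val.comp (aeval A.G) = A.Φ.T.j.comp (aeval A.CG.f) := by
    apply MvPolynomial.algHom_ext
    intro a
    rw [AlgHom.comp_apply, AlgHom.comp_apply, aeval_X, aeval_X]
    exact A.hG a
  exact DFunLike.congr_fun h q

open Classical in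
/-- `H` is finitely generated over the parameters -/
theorem fgH : FG (List.ofFn A.F ++ List.ofFn A.G) H := by
  refine ⟨Finset.univ.image (fun x : Fin A.CF.N × W × Fin A.CG.N =>
    A.Φ.T.i (A.CF.c x.1) * A.Φ.T.u x.2.1 * A.Φ.T.j (A.CG.c x.2.2)), fun N hs hN => ?_⟩
  have hF : ∀ i, ∀ m ∈ N, (A.F i : Zc H) • m ∈ N := fun i m hm =>
    hN _ (List.mem_append_left _ ((List.mem_ofFn' A.F _).2 ⟨i, rfl⟩)) m hm
  have hG : ∀ i, ∀ m ∈ N, (A.G i : Zc H) • m ∈ N := fun i m hm =>
    hN _ (List.mem_append_right _ ((List.mem_ofFn' A.G _).2 ⟨i, rfl⟩)) m hm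
  have sF := fun q => stable (aeval A.F) N (fun i m hm => by rw [aeval_X]; exact hF i m hm) q
  have sG := fun q => stable (aeval A.G) N (fun i m hm => by rw [aeval_X]; exact hG i m hm) q
  have key : ∀ w (f g : MvPolynomial (Fin n) ℂ), A.Φ.T.i f * A.Φ.T.u w * A.Φ.T.j g ∈ N := by
    intro w f g
    obtain ⟨q, hq, -⟩ := A.CF.free f
    obtain ⟨q', hq', -⟩ := A.CG.free g
    have e : A.Φ.T.i f * A.Φ.T.u w * A.Φ.T.j g = ∑ k, ∑ l, (aeval A.F (q k) : Zc H) •
        ((aeval A.G (q' l) : Zc H) • (A.Φ.T.i (A.CF.c k) * A.Φ.T.u w * A.Φ.T.j (A.CG.c l))) := by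
      conv_lhs => rw [hq, hq', map_sum, map_sum, Finset.sum_mul, Finset.sum_mul_sum]
      refine Finset.sum_congr rfl fun k _ => Finset.sum_congr rfl fun l _ => ?_
      rw [map_mul, map_mul, ← evF, ← evG]
      change _ = ((aeval A.F (q k) : Zc H) : H) * (((aeval A.G (q' l) : Zc H) : H) *
        (A.Φ.T.i (A.CF.c k) * A.Φ.T.u w * A.Φ.T.j (A.CG.c l)))
      have h1 := cen (aeval A.G (q' l)) (A.Φ.T.i (A.CF.c k) * A.Φ.T.u w)
      calc _ = ((aeval A.F (q k) : Zc H) : H) * ((A.Φ.T.i (A.CF.c k) * A.Φ.T.u w) *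
            ((aeval A.G (q' l) : Zc H) : H)) * A.Φ.T.j (A.CG.c l) := by
              simp only [mul_assoc]
        _ = _ := by rw [← h1]; simp only [mul_assoc]
    rw [e]
    refine N.sum_mem fun k _ => N.sum_mem fun l _ => sF _ _ (sG _ _ (hs _ ?_))
    exact Finset.mem_image.2 ⟨(k, w, l), Finset.mem_univ _, rfl⟩
  rw [eq_top_iff]
  intro h _
  obtain ⟨q, rfl⟩ := A.Φ.T.pbw.2 h
  refine N.sum_mem fun w _ => ?_
  have h2 : ∀ x, mu A.Φ.T.i A.Φ.T.j A.Φ.T.u w x ∈ N := by
    intro x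
    induction x using TensorProduct.induction_on with
    | zero => rw [map_zero]; exact N.zero_mem
    | tmul f g =>
      have e : mu A.Φ.T.i A.Φ.T.j A.Φ.T.u w (f ⊗ₜ[ℂ] g) = A.Φ.T.i f * A.Φ.T.u w * A.Φ.T.j g := by
        simp [mu]
      rw [e]
      exact key w f g
    | add a b ha hb => rw [map_add]; exact N.add_mem ha hb
  exact h2 _

end Pool.Agent.V5helper19.CM.Zf

namespace Pool.Agent.V5helper19.CM

open Pool.Agent.V5helper32.CM MvPolynomial Zf

theorem t_ZFIN (hFG : S_FG) : S_ZFIN := by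
  intro n W _ _ D H _ _ Λ _ _ Sp _ _ _ _ A
  obtain ⟨hgood, hno⟩ := hFG (Zc H)
  set xs : List (Zc H) := List.ofFn A.F ++ List.ofFn A.G with hxs
  have hc : CenL xs := fun x _ l => mul_comm x l
  have h1 : FG xs H := fgH A
  -- the centre as a submodule
  let κ : Zc H →ₗ[Zc H] H :=
    { toFun := fun z => z
      map_add' := fun _ _ => rfl
      map_smul' := fun _ _ => rfl }
  have hκ : Function.Injective κ := Subtype.val_injective
  have h2 : FG xs (Zc H) := hgood.iso xs hc _ _ (LinearEquiv.ofInjective κ hκ).symm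
    (hgood.sub xs hc H (LinearMap.range κ) h1)
  refine ⟨(hno xs hc (Zc H) h2).1, h2, ?_⟩
  -- the spherical module
  let _ : Module (Zc H) Sp := Module.compHom Sp (A.s.ι : Zc H →+* Λ)
  have hs : ∀ (z : Zc H) (m : Sp), z • m = A.s.ι z • m := fun z m => rfl
  have : IsScalarTower ℂ (Zc H) Sp := by
    refine ⟨fun c z m => ?_⟩
    rw [hs, hs, map_smul, smul_assoc]
  let ψ : Sp →ₗ[Zc H] H :=
    { toFun := A.ψ
      map_add' := map_add A.ψ
      map_smul' := fun z m => A.ψz z m }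
  have hψ : Function.Injective ψ := A.ψinj
  have h3 : FG xs Sp := hgood.iso xs hc _ _ (LinearEquiv.ofInjective ψ hψ).symm
    (hgood.sub xs hc H (LinearMap.range ψ) h1)
  obtain ⟨s, h4⟩ := h3
  refine ⟨s, fun N hN hN2 => h4 N hN fun x hx m hm => ?_⟩
  exact hN2 (A.s.ι x) (List.mem_map_of_mem hx) m hm

end Pool.Agent.V5helper19.CM
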